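import Pool.Agent.H57GWR.Main
import Pool.Agent.H57GWR.FAM
import Pool.Agent.H57GWR.ANAL
import Pool.Agent.H57GWR.FIN

/-!
# MP_17b90d_lc, question Q1: a random oracle does not change the Gray–Wyner profile

The definitions used in the statement (`OptCond`, `OptOracle`, `OracleMachine`, `ini`, `KS`, `PairCode`, `GW`, `plus`,
`coin`) are in `Pool.Agent.H57GWR.KDefs`.
-/

set_option autoImplicit false

namespace Pool.Agent.Results.MP_17b90d_lc.RandomOracle

open Pool.Agent.H57GWR MeasureTheory

/-- Optimal machines exist, with and without an oracle, and so do computable pairings; and for all choices `D`, `V`, `pr` of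
these, for every `ε > 0` there is a constant `c` such that for all `n ≥ 2` and all pairs `(x, y)` with `KS(x, y) ≤ n`
the probability (over the random oracle `A`) that `GW^A(x, y)` is not contained in `GW(x, y)_{+ c log n}` is at
most `ε`. -/
theorem result : (∃ D, OptCond D) ∧ (∃ V, OptOracle V) ∧ (∃ pr, PairCode pr) ∧
    ∀ (D : List Bool → List Bool →. List Bool) (V : (ℕ → Bool) → List Bool → List Bool →. List Bool)
      (pr : List Bool → List Bool → List Bool), OptCond D → OptOracle V → PairCode pr →
      ∀ ε : ℝ, 0 < ε → ∃ c : ℝ, ∀ n : ℕ, 2 ≤ n → ∀ x y : List Bool, KS D (pr x y) [] ≤ n →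
        coin {A | ¬ GW (V A) x y ⊆ plus (c * Real.logb 2 n) (GW D x y)} ≤ ENNReal.ofReal ε := by
  refine ⟨exo.1, exo.2.1, exo.2.2, fun D V pr hD hV hpr => ?_⟩
  exact fin D V pr hD hV hpr (mt fam anal D V hD hV.1 (opt_surj hV))

end Pool.Agent.Results.MP_17b90d_lc.RandomOracle
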